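import Pool.Agent.H9.CritU

set_option autoImplicit false

namespace Pool.Agent.Results.MP_b82347_co.Counter

open Pool.Agent.H9.CritU

theorem result (V : Type) [Fintype V] (l : ℕ) (hl : 4 ≤ l)
    (H₁ H₂ : (⊤ : SimpleGraph V).Subgraph) (h1 : IsCritical 3 H₁) (h2 : IsCritical l H₂) :
    (H₁ ⊔ H₂).coe.Colorable ((3 - 1) * (l - 1)) :=
  main l hl H₁ H₂ h1 h2

end Pool.Agent.Results.MP_b82347_co.Counter
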